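import Pool.Agent.H32.N6W.Targets

/-!
# Row HMS of n6w_modules (MP_63b6b1_nt): the symbol modulo a polynomial
-/

set_option autoImplicit false

open Polynomial NumberField IsDedekindDomain Matrix Pool.Agent.H32.QC Pool.Agent.H34.N6
open Pool.Agent.H13.DEV Pool.Agent.H34.N6V Pool.Agent.H63.WT Pool.Agent.H32.N6W

namespace Pool.Agent.H97.N6W

theorem pf_HMS : T_HMS := by
  intro F E _ _ ψ p a b hs hk
  have h : SolM p a b ↔ Sol (ψ a) (ψ b) := by
    constructor
    · rintro ⟨x, y, z, hne, hd⟩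
      refine ⟨ψ x, ψ y, ψ z, ?_, ?_⟩
      · rcases hne with h1 | h1 | h1
        · exact Or.inl fun h2 => h1 ((hk x).1 h2)
        · exact Or.inr (Or.inl fun h2 => h1 ((hk y).1 h2))
        · exact Or.inr (Or.inr fun h2 => h1 ((hk z).1 h2))
      · have h2 := (hk _).2 hd
        simp only [map_sub, map_mul, map_pow] at h2
        linear_combination h2
    · rintro ⟨x, y, z, hne, hd⟩
      obtain ⟨x, rfl⟩ := hs x
      obtain ⟨y, rfl⟩ := hs y
      obtain ⟨z, rfl⟩ := hs z
      refine ⟨x, y, z, ?_, ?_⟩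
      · rcases hne with h1 | h1 | h1
        · exact Or.inl fun h2 => h1 ((hk x).2 h2)
        · exact Or.inr (Or.inl fun h2 => h1 ((hk y).2 h2))
        · exact Or.inr (Or.inr fun h2 => h1 ((hk z).2 h2))
      · rw [← hk]
        simp only [map_sub, map_mul, map_pow]
        linear_combination hd
  unfold hm hil
  by_cases h1 : SolM p a b
  · rw [if_pos h1, if_pos (h.1 h1)]
  · rw [if_neg h1, if_neg fun h2 => h1 (h.2 h2)]

end Pool.Agent.H97.N6W
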